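import Pool.Agent.Lib.MP_144d21_co.XU.Iface

/-!
# XU: module CON2 (contraction of an edge of a 3-connected graph)
-/

set_option autoImplicit false

namespace Pool.Agent.Xu.H34

open Finset Polynomial

theorem conn_mono {V : Type} [Fintype V] [DecidableEq V] {G G' : SimpleGraph V} {T : Finset V}
    (h : Conn G T) (hG : ∀ a b, G.Adj a b → G'.Adj a b) : Conn G' T := by
  refine ⟨h.1, fun A hA hne hAT => ?_⟩
  obtain ⟨a, ha, b, hb, hbA, hab⟩ := h.2 A hA hne hAT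
  exact ⟨a, ha, b, hb, hbA, hG a b hab⟩

theorem con_conn {V : Type} [Fintype V] [DecidableEq V] {G : SimpleGraph V} {T : Finset V}
    {v w : V} (hv : v ∈ T) (hw : w ∈ T) (hvw : v ≠ w) (h : Conn G T) :
    Conn (con G v w) (T.erase v) := by
  refine ⟨⟨w, mem_erase.2 ⟨hvw.symm, hw⟩⟩, fun A hA hne hAT => ?_⟩
  have hvA : v ∉ A := fun hv' => (mem_erase.1 (hA hv')).1 rfl
  by_cases hwA : w ∈ A
  · have h1 : insert v A ⊆ T := by
      intro x hx
      rcases mem_insert.1 hx with rfl | hx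
      · exact hv
      · exact (mem_erase.1 (hA hx)).2
    have h2 : insert v A ≠ T := by
      intro h3
      apply hAT
      rw [← h3, erase_insert hvA]
    obtain ⟨a, ha, b, hb, hbA, hab⟩ := h.2 _ h1 ⟨v, mem_insert_self _ _⟩ h2
    have hbv : b ≠ v := fun h3 => hbA (by rw [h3]; exact mem_insert_self _ _)
    have hbA' : b ∉ A := fun h3 => hbA (mem_insert_of_mem h3)
    rcases mem_insert.1 ha with rfl | ha
    · exact ⟨w, hwA, b, mem_erase.2 ⟨hbv, hb⟩, hbA',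
        ⟨fun h3 => hbA' (h3 ▸ hwA), Or.inr (Or.inl ⟨rfl, hab⟩)⟩⟩
    · exact ⟨a, ha, b, mem_erase.2 ⟨hbv, hb⟩, hbA', ⟨hab.ne, Or.inl hab⟩⟩
  · have h1 : A ⊆ T := fun x hx => (mem_erase.1 (hA hx)).2
    have h2 : A ≠ T := fun h3 => hvA (h3 ▸ hv)
    obtain ⟨a, ha, b, hb, hbA, hab⟩ := h.2 _ h1 hne h2
    by_cases hbv : b = v
    · subst hbv
      exact ⟨a, ha, w, mem_erase.2 ⟨hvw.symm, hw⟩, hwA,
        ⟨fun h3 => hwA (h3 ▸ ha), Or.inr (Or.inr ⟨rfl, hab.symm⟩)⟩⟩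
    · exact ⟨a, ha, b, mem_erase.2 ⟨hbv, hb⟩, hbA, ⟨hab.ne, Or.inl hab⟩⟩

theorem con2 : Con2S := by
  intro V _ _ G S v w h3 hv hw hvw
  obtain ⟨hc, ⟨-, hS, hS1⟩, hS2⟩ := h3
  have hne : v ≠ w := hvw.ne
  refine ⟨?_, con_conn hv hw hne hS, fun u hu => ?_⟩
  · rw [card_erase_of_mem hv]; omega
  · obtain ⟨huv, huS⟩ := mem_erase.1 hu
    by_cases huw : u = w
    · subst huw
      refine conn_mono (hS2 v hv u hw hne) fun a b hab => ?_
      exact ⟨hab.ne, Or.inl hab⟩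
    · rw [erase_right_comm]
      exact con_conn (mem_erase.2 ⟨huv.symm, hv⟩) (mem_erase.2 ⟨Ne.symm huw, hw⟩) hne (hS1 u huS)

end Pool.Agent.Xu.H34
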