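import Pool.Agent.Lib.MP_144d21_co.XU.Iface

/-!
# XU: module CORENUM (parameters of 2-connected members)
-/

set_option autoImplicit false

namespace Pool.Agent.Xu.H34

open Finset Polynomial

theorem corenum (hNum : NumS) (hCoef : CoefS) (hTric : TricS) (hAlpha : AlphaS) (hChi : ChiS)
    (hThma : ThmaS) (hPert : PertS) : CorenumS := by
  intro V _ _ G S r0 r1 a b hG hP
  have hG0 := hG
  obtain ⟨hc, hconn, -⟩ := hG
  obtain ⟨n1, n2, n3, n4, n5, n6, n7, n8, n9⟩ := hNum (chi G S) r0 r1 a b hP
  obtain ⟨c1, c2, c3⟩ := hCoef V G S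
  have hne : S.Nonempty := card_pos.1 (by omega)
  -- an edge
  obtain ⟨s0, hs0⟩ := hne
  obtain ⟨x, hx, y, hy, -, hxy⟩ : ∃ a ∈ ({s0} : Finset V), ∃ b ∈ S, b ∉ ({s0} : Finset V) ∧
      G.Adj a b := by
    refine hconn.2 {s0} (by simpa using hs0) ⟨s0, mem_singleton_self _⟩ ?_
    intro h
    rw [← h, card_singleton] at hc
    omega
  have hxS : x ∈ S := by rw [mem_singleton.1 hx]; exact hs0
  have e0 : (chi G S).eval 0 = 0 := by
    have h := hChi V G S 0
    have h0 : cols G S 0 = ∅ := by
      apply eq_empty_of_forall_notMem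
      intro c hc'
      have := (mem_cols.1 hc').1 s0 hs0
      omega
    rw [h0, card_empty] at h
    simpa using h
  have e1 : (chi G S).eval 1 = 0 := by
    have h := hChi V G S 1
    have h0 : cols G S 1 = ∅ := by
      apply eq_empty_of_forall_notMem
      intro c hc'
      obtain ⟨h1, -, h3⟩ := mem_cols.1 hc'
      have h4 := h1 x hxS
      have h5 := h1 y hy
      exact h3 x hxS y hy hxy (by omega)
    rw [h0, card_empty] at h
    simpa using h
  have hr0 : r0 = 1 := by
    have hA := hAlpha V G S hconn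
    rcases Nat.lt_or_ge r0 1 with h | h
    · exact absurd e0 (n5 (by omega))
    · rcases Nat.lt_or_ge r0 2 with h' | h'
      · omega
      · exfalso
        unfold alp at hA
        rw [n4 h', mul_zero] at hA
        exact lt_irrefl _ hA
  have hr1 : r1 = 1 := by
    rcases Nat.lt_or_ge r1 1 with h | h
    · exact absurd e1 (n7 (by omega))
    · rcases Nat.lt_or_ge r1 2 with h' | h'
      · omega
      · exfalso
        obtain ⟨p, hp, -⟩ := hPert V G S 0
        have hT := (hThma V G S p hp hG0).1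
        unfold bet at hT
        rw [n6 h', mul_zero, zero_mul] at hT
        exact absurd hT (not_le.2 (by positivity))
  have hcard : S.card = 2 + a + b := by
    rw [← c2, n1, hr0, hr1]
  have hnat : (chi G S).natDegree = S.card := c2
  have hedges : ne G S = 1 + 2 * a + 3 * b := by
    have h1 := c3 (by omega)
    have h2 := n2 (by rw [hnat]; omega)
    rw [hnat, h1, hr1] at h2
    have h3 : (ne G S : ℤ) = ((1 + 2 * a + 3 * b : ℕ) : ℤ) := by linarith
    exact_mod_cast h3
  refine ⟨hr0, hr1, hcard, hedges, ?_, ?_, ?_⟩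
  · unfold bet
    rw [hcard]
    exact n8 hr0 hr1
  · have h := hChi V G S 4
    have h4 := n9 hr0 hr1
    have h5 : ((4 : ℕ) : ℤ) = 4 := rfl
    rw [h5, h4] at h
    exact_mod_cast h.symm
  · intro hab
    by_contra hno
    have hfree : ∀ x ∈ S, ∀ y ∈ S, ∀ z ∈ S, ¬ (G.Adj x y ∧ G.Adj y z ∧ G.Adj x z) := by
      intro x hx y hy z hz h
      exact hno ⟨x, hx, y, hy, z, hz, h⟩
    have h1 := hTric V G S hc hfree
    have h2 := n3 (by rw [hnat]; omega)
    rw [hnat, h1, hr1, hedges] at h2
    push_cast at h2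
    have h3 : (1 + 2 * (a : ℤ) + 3 * b) = 1 + 4 * a + 9 * b := by nlinarith [h2]
    have h4 : (1 : ℤ) ≤ a + b := by exact_mod_cast hab
    have h5 : (0 : ℤ) ≤ a := by positivity
    have h6 : (0 : ℤ) ≤ b := by positivity
    linarith

end Pool.Agent.Xu.H34
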