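import Pool.Agent.Lib.MP_144d21_co.XU.Iface

/-!
# XU: module FACT (monic factors of products of linear factors)
-/

set_option autoImplicit false

namespace Pool.Agent.Xu.H34

open Finset Polynomial

theorem fact_aux (s : Multiset ℤ) : ∀ P Q : ℤ[X], P.Monic → Q.Monic →
    P * Q = (s.map fun x => (X - C x : ℤ[X])).prod →
    ∃ t ≤ s, P = (t.map fun x => (X - C x : ℤ[X])).prod := by
  induction s using Multiset.induction_on with
  | empty =>
    intro P Q hP hQ h
    refine ⟨0, le_rfl, ?_⟩
    simp only [Multiset.map_zero, Multiset.prod_zero] at h ⊢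
    exact hP.eq_one_of_isUnit (IsUnit.of_mul_eq_one _ h)
  | cons x s ih =>
    intro P Q hP hQ h
    rw [Multiset.map_cons, Multiset.prod_cons] at h
    have hroot : (P * Q).IsRoot x := by
      rw [h, IsRoot.def, eval_mul]; simp
    have hx : (X - C x : ℤ[X]) ≠ 0 := X_sub_C_ne_zero x
    rcases root_mul.1 hroot with h1 | h1
    · obtain ⟨P', hP'⟩ := dvd_iff_isRoot.2 h1
      have hP'm : P'.Monic := by
        rw [hP'] at hP
        exact (monic_X_sub_C x).of_mul_monic_left hP
      have h2 : P' * Q = (s.map fun x => (X - C x : ℤ[X])).prod := by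
        apply mul_left_cancel₀ hx
        rw [← h, hP']; ring
      obtain ⟨t, ht, hPt⟩ := ih P' Q hP'm hQ h2
      refine ⟨x ::ₘ t, (Multiset.cons_le_cons_iff x).2 ht, ?_⟩
      rw [Multiset.map_cons, Multiset.prod_cons, ← hPt, ← hP']
    · obtain ⟨Q', hQ'⟩ := dvd_iff_isRoot.2 h1
      have hQ'm : Q'.Monic := by
        rw [hQ'] at hQ
        exact (monic_X_sub_C x).of_mul_monic_left hQ
      have h2 : P * Q' = (s.map fun x => (X - C x : ℤ[X])).prod := by
        apply mul_left_cancel₀ hx
        rw [← h, hQ']; ring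
      obtain ⟨t, ht, hPt⟩ := ih P Q' hP hQ'm h2
      exact ⟨t, ht.trans (Multiset.le_cons_self s x), hPt⟩

theorem fact : FactS := by
  intro P Q r0 r1 a b hP hQ h
  set s : Multiset ℤ := Multiset.replicate r0 0 + Multiset.replicate r1 1 +
    Multiset.replicate a 2 + Multiset.replicate b 3 with hs
  have hprod : ∀ n0 n1 n2 n3 : ℕ, (((Multiset.replicate n0 (0 : ℤ) + Multiset.replicate n1 1 +
      Multiset.replicate n2 2 + Multiset.replicate n3 3 : Multiset ℤ)).map
      fun x => (X - C x : ℤ[X])).prod =
      X ^ n0 * (X - C 1) ^ n1 * (X - C 2) ^ n2 * (X - C 3) ^ n3 := by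
    intro n0 n1 n2 n3
    simp only [Multiset.map_add, Multiset.prod_add, Multiset.map_replicate,
      Multiset.prod_replicate, map_zero, sub_zero]
  obtain ⟨t, ht, hPt⟩ := fact_aux s P Q hP hQ (by rw [h, hs, hprod])
  have hcnt : ∀ x, t.count x ≤ s.count x := fun x => Multiset.count_le_of_le x ht
  have hteq : t = Multiset.replicate (t.count 0) 0 + Multiset.replicate (t.count 1) 1 +
      Multiset.replicate (t.count 2) 2 + Multiset.replicate (t.count 3) 3 := by
    ext x
    simp only [Multiset.count_add, Multiset.count_replicate]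
    by_cases h0 : x = 0
    · subst h0; simp
    by_cases h1 : x = 1
    · subst h1; simp
    by_cases h2 : x = 2
    · subst h2; simp
    by_cases h3 : x = 3
    · subst h3; simp
    have h4 := hcnt x
    rw [hs] at h4
    simp only [Multiset.count_add, Multiset.count_replicate] at h4
    rw [if_neg (Ne.symm h0), if_neg (Ne.symm h1), if_neg (Ne.symm h2), if_neg (Ne.symm h3)] at h4
    rw [if_neg (Ne.symm h0), if_neg (Ne.symm h1), if_neg (Ne.symm h2), if_neg (Ne.symm h3)]
    omega
  refine ⟨t.count 0, t.count 1, t.count 2, t.count 3, ?_, ?_⟩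
  · have h4 := hcnt 2
    rw [hs] at h4
    simp only [Multiset.count_add, Multiset.count_replicate] at h4
    norm_num at h4
    exact h4
  · rw [hPt]
    conv_lhs => rw [hteq]
    exact hprod _ _ _ _

end Pool.Agent.Xu.H34
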